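import Mathlib

/-!
# MP_f7162b_al : a torsion-free Hopfian abelian group that is not co-finitely injective
-/

namespace Pool.Agent.Results.MP_f7162b_al.NotCofinite

open Filter Topology

section Transcendental

variable (p : ℕ) [hp : Fact p.Prime]

theorem exists_transcendental : ∃ α : ℚ_[p], ‖α‖ ≤ 1 ∧ Transcendental ℚ α := by
  have h1 : ¬ ({x : ℚ_[p] | IsAlgebraic ℚ x} = Set.univ) := by
    intro h
    have h2 : ({x : ℚ_[p] | IsAlgebraic ℚ x}).Countable := Algebraic.countable ℚ ℚ_[p]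
    rw [h, Set.countable_univ_iff] at h2
    have h3 := continuum_le_cardinal_of_nontriviallyNormedField ℚ_[p]
    have h4 : Cardinal.mk ℚ_[p] ≤ Cardinal.aleph0 := Cardinal.mk_le_aleph0
    exact absurd (h3.trans h4) (not_le.mpr Cardinal.aleph0_lt_continuum)
  rw [Set.eq_univ_iff_forall] at h1
  push Not at h1
  obtain ⟨x, hx⟩ := h1
  have hx' : Transcendental ℚ x := hx
  -- scale
  obtain ⟨n, hn⟩ : ∃ n : ℕ, ‖x‖ ≤ (p : ℝ) ^ n := by
    have hp1 : (1 : ℝ) < p := by exact_mod_cast hp.out.one_lt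
    exact (pow_unbounded_of_one_lt ‖x‖ hp1).imp fun n h => h.le
  refine ⟨(p : ℚ_[p]) ^ n * x, ?_, ?_⟩
  · have hp0 : (0 : ℝ) < p := by exact_mod_cast hp.out.pos
    rw [norm_mul, norm_pow, Padic.norm_p, inv_pow]
    rw [inv_mul_le_iff₀ (by positivity)]
    simpa using hn
  · intro halg
    apply hx'
    have hpn : ((p : ℚ_[p]) ^ n) ≠ 0 := pow_ne_zero _ (by exact_mod_cast hp.out.ne_zero)
    have h5 : x = algebraMap ℚ ℚ_[p] (((p : ℚ) ^ n)⁻¹) * ((p : ℚ_[p]) ^ n * x) := by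
      rw [map_inv₀, map_pow, map_natCast, inv_mul_cancel_left₀ hpn]
    rw [h5]
    exact (isAlgebraic_algebraMap _).mul halg

end Transcendental

variable {p : ℕ} [hp : Fact p.Prime]

/-- Linear independence of `1, α, α², α³, α⁴, α⁶`. -/
theorem indep {α : ℚ_[p]} (hα : Transcendental ℚ α) (a0 a1 a2 a3 a4 a6 : ℚ)
    (h : (a0 : ℚ_[p]) + a1 * α + a2 * α ^ 2 + a3 * α ^ 3 + a4 * α ^ 4 + a6 * α ^ 6 = 0) :
    a0 = 0 ∧ a1 = 0 ∧ a2 = 0 ∧ a3 = 0 ∧ a4 = 0 ∧ a6 = 0 := by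
  open Polynomial in
  set P : ℚ[X] := C a0 + C a1 * X + C a2 * X ^ 2 + C a3 * X ^ 3 + C a4 * X ^ 4 + C a6 * X ^ 6
    with hP
  have hP0 : P = 0 := by
    by_contra hne
    apply hα
    refine ⟨P, hne, ?_⟩
    rw [hP]
    simp only [map_add, map_mul, map_pow, Polynomial.aeval_X, Polynomial.aeval_C,
      eq_ratCast]
    exact h
  refine ⟨?_, ?_, ?_, ?_, ?_, ?_⟩
  · have := congrArg (fun Q => Polynomial.coeff Q 0) hP0
    simpa [hP, Polynomial.coeff_X, Polynomial.coeff_C, Polynomial.coeff_X_pow] using this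
  · have := congrArg (fun Q => Polynomial.coeff Q 1) hP0
    simpa [hP, Polynomial.coeff_X, Polynomial.coeff_C, Polynomial.coeff_X_pow] using this
  · have := congrArg (fun Q => Polynomial.coeff Q 2) hP0
    simpa [hP, Polynomial.coeff_X, Polynomial.coeff_C, Polynomial.coeff_X_pow] using this
  · have := congrArg (fun Q => Polynomial.coeff Q 3) hP0
    simpa [hP, Polynomial.coeff_X, Polynomial.coeff_C, Polynomial.coeff_X_pow] using this
  · have := congrArg (fun Q => Polynomial.coeff Q 4) hP0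
    simpa [hP, Polynomial.coeff_X, Polynomial.coeff_C, Polynomial.coeff_X_pow] using this
  · have := congrArg (fun Q => Polynomial.coeff Q 6) hP0
    simpa [hP, Polynomial.coeff_X, Polynomial.coeff_C, Polynomial.coeff_X_pow] using this

/-- The group: finitely supported sequences `w` with `‖w 0‖ ≤ p`, `‖w m‖ ≤ 1` for `m ≥ 1`, of the
shape `w m = A m + α³ C m + α C (m+1)` with rational sequences `A`, `C`. -/
def Grp (α : ℚ_[p]) : AddSubgroup (ℕ → ℚ_[p]) where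
  carrier := {w | (∃ N, ∀ m, N ≤ m → w m = 0) ∧ ‖w 0‖ ≤ p ∧ (∀ m, ‖w (m + 1)‖ ≤ 1) ∧
    ∃ A C : ℕ → ℚ, ∀ m, w m = A m + α ^ 3 * C m + α * C (m + 1)}
  zero_mem' := ⟨⟨0, fun _ _ => rfl⟩, by simp, by simp, 0, 0, by simp⟩
  add_mem' := by
    rintro v w ⟨⟨N, hN⟩, h0, h1, A, C, hAC⟩ ⟨⟨N', hN'⟩, h0', h1', A', C', hAC'⟩
    refine ⟨⟨max N N', fun m hm => ?_⟩, ?_, fun m => ?_, A + A', C + C', fun m => ?_⟩
    · rw [Pi.add_apply, hN m ((le_max_left _ _).trans hm), hN' m ((le_max_right _ _).trans hm),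
        add_zero]
    · exact (Padic.nonarchimedean _ _).trans (max_le h0 h0')
    · exact (Padic.nonarchimedean _ _).trans (max_le (h1 m) (h1' m))
    · rw [Pi.add_apply, hAC, hAC']
      simp only [Pi.add_apply]
      push_cast; ring
  neg_mem' := by
    rintro v ⟨⟨N, hN⟩, h0, h1, A, C, hAC⟩
    refine ⟨⟨N, fun m hm => ?_⟩, ?_, fun m => ?_, -A, -C, fun m => ?_⟩
    · rw [Pi.neg_apply, hN m hm, neg_zero]
    · rw [Pi.neg_apply, norm_neg]; exact h0
    · rw [Pi.neg_apply, norm_neg]; exact h1 m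
    · rw [Pi.neg_apply, hAC]
      simp only [Pi.neg_apply]
      push_cast; ring

theorem norm_le {α : ℚ_[p]} (w : Grp α) (m : ℕ) : ‖(w : ℕ → ℚ_[p]) m‖ ≤ p := by
  obtain ⟨w, ⟨N, hN⟩, h0, h1, A, C, hAC⟩ := w
  rcases m with _ | m
  · exact h0
  · exact (h1 m).trans (by exact_mod_cast hp.out.one_lt.le)

/-- the unit vectors -/
noncomputable def u (α : ℚ_[p]) (j : ℕ) : Grp α :=
  ⟨fun m => if m = j then 1 else 0, ⟨j + 1, fun m hm => by
    show (if m = j then (1 : ℚ_[p]) else 0) = 0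
    rw [if_neg (by omega)]⟩, by
    have h1 : (1 : ℝ) ≤ p := by exact_mod_cast hp.out.one_lt.le
    show ‖(if 0 = j then (1 : ℚ_[p]) else 0)‖ ≤ p
    split_ifs
    · simpa using h1
    · rw [norm_zero]; linarith, fun m => by
    show ‖(if m + 1 = j then (1 : ℚ_[p]) else 0)‖ ≤ 1
    split_ifs <;> simp, fun m => if m = j then 1 else 0, 0, fun m => by
    by_cases h : m = j <;> simp [h]⟩

theorem u_apply (α : ℚ_[p]) (j m : ℕ) :
    (u α j : ℕ → ℚ_[p]) m = if m = j then 1 else 0 := rfl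

/-- the vectors `α³ u_0` and `α u_j + α³ u_{j+1}` -/
noncomputable def X (α : ℚ_[p]) (hα : ‖α‖ ≤ 1) (j : ℕ) : Grp α :=
  ⟨fun m => α ^ 3 * (if m = j then 1 else 0) + α * (if m + 1 = j then 1 else 0),
    ⟨j + 1, fun m hm => by
      show α ^ 3 * (if m = j then 1 else 0) + α * (if m + 1 = j then 1 else 0) = 0
      rw [if_neg (by omega), if_neg (by omega)]; simp⟩, by
    have h1 : (1 : ℝ) ≤ p := by exact_mod_cast hp.out.one_lt.le
    have h3 : ‖α ^ 3‖ ≤ 1 := by rw [norm_pow]; exact pow_le_one₀ (norm_nonneg _) hα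
    refine (Padic.nonarchimedean _ _).trans (max_le ?_ ?_)
    · split_ifs
      · simpa using h3.trans h1
      · simp
    · split_ifs
      · simpa using hα.trans h1
      · simp, fun m => by
    have h3 : ‖α ^ 3‖ ≤ 1 := by rw [norm_pow]; exact pow_le_one₀ (norm_nonneg _) hα
    refine (Padic.nonarchimedean _ _).trans (max_le ?_ ?_)
    · split_ifs
      · simpa using h3
      · simp
    · split_ifs
      · simpa using hα
      · simp, 0, fun m => if m = j then 1 else 0, fun m => by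
    simp only [Pi.zero_apply, Rat.cast_zero, zero_add]
    by_cases h : m = j
    · subst h; simp
    · by_cases h' : m + 1 = j <;> simp [h, h']⟩

theorem X_apply (α : ℚ_[p]) (hα : ‖α‖ ≤ 1) (j m : ℕ) : (X α hα j : ℕ → ℚ_[p]) m =
    α ^ 3 * (if m = j then 1 else 0) + α * (if m + 1 = j then 1 else 0) := rfl

theorem approx (x : ℚ_[p]) (hx : ‖x‖ ≤ 1) (n : ℕ) :
    ∃ b : ℕ, ‖x - (b : ℚ_[p])‖ ≤ ((p : ℝ)⁻¹) ^ n := by
  set y : ℤ_[p] := ⟨x, hx⟩ with hy
  refine ⟨PadicInt.appr y n, ?_⟩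
  have h1 := PadicInt.appr_spec n y
  rw [← PadicInt.norm_le_pow_iff_mem_span_pow] at h1
  have h2 : ‖(y - (PadicInt.appr y n : ℤ_[p]) : ℤ_[p])‖ =
      ‖x - ((PadicInt.appr y n : ℕ) : ℚ_[p])‖ := by
    rw [PadicInt.norm_def]; push_cast; rfl
  rw [h2] at h1
  rw [inv_pow]
  simpa [zpow_neg, zpow_natCast] using h1

/-- dividing by `p^n` -/
theorem divide {α : ℚ_[p]} (h : Grp α) (n : ℕ)
    (hn : ∀ m, ‖(h : ℕ → ℚ_[p]) m‖ ≤ ((p : ℝ)⁻¹) ^ n) : ∃ h' : Grp α, h = (p ^ n) • h' := by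
  obtain ⟨w, ⟨N, hN⟩, h0, h1, A, C, hAC⟩ := h
  simp only at hn
  have hp0 : (0 : ℝ) < p := by exact_mod_cast hp.out.pos
  have hpn : ((p : ℚ_[p]) ^ n) ≠ 0 := pow_ne_zero _ (by exact_mod_cast hp.out.ne_zero)
  have hnorm : ∀ m, ‖((p : ℚ_[p]) ^ n)⁻¹ * w m‖ ≤ 1 := by
    intro m
    rw [norm_mul, norm_inv, norm_pow, Padic.norm_p, inv_mul_le_iff₀ (by positivity), mul_one]
    exact hn m
  refine ⟨⟨fun m => ((p : ℚ_[p]) ^ n)⁻¹ * w m, ⟨N, fun m hm => by
    show ((p : ℚ_[p]) ^ n)⁻¹ * w m = 0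
    rw [hN m hm, mul_zero]⟩,
    (hnorm 0).trans (by exact_mod_cast hp.out.one_lt.le), fun m => hnorm (m + 1),
    fun m => ((p : ℚ) ^ n)⁻¹ * A m, fun m => ((p : ℚ) ^ n)⁻¹ * C m, fun m => ?_⟩, ?_⟩
  · show ((p : ℚ_[p]) ^ n)⁻¹ * w m = (((p : ℚ) ^ n)⁻¹ * A m : ℚ) +
      α ^ 3 * (((p : ℚ) ^ n)⁻¹ * C m : ℚ) + α * (((p : ℚ) ^ n)⁻¹ * C (m + 1) : ℚ)
    rw [hAC]; push_cast; ring
  · ext m
    simp only [AddSubgroup.coe_nsmul, Pi.smul_apply, nsmul_eq_mul]
    push_cast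
    rw [mul_inv_cancel_left₀ hpn]

/-- `p`-adic continuity: endomorphisms are determined by their values on the unit vectors. -/
theorem formula {α : ℚ_[p]} (η : Grp α →+ Grp α) (g : Grp α) (N : ℕ)
    (hN : ∀ m, N ≤ m → (g : ℕ → ℚ_[p]) m = 0) (i : ℕ) :
    (η g : ℕ → ℚ_[p]) i =
      ∑ m ∈ Finset.range N, (g : ℕ → ℚ_[p]) m * (η (u α m) : ℕ → ℚ_[p]) i := by
  have hp0 : (0 : ℝ) < p := by exact_mod_cast hp.out.pos
  have hp1 : (1 : ℝ) < p := by exact_mod_cast hp.out.one_lt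
  have hpne : (p : ℚ_[p]) ≠ 0 := by exact_mod_cast hp.out.ne_zero
  set D : ℚ_[p] := (η g : ℕ → ℚ_[p]) i -
      ∑ m ∈ Finset.range N, (g : ℕ → ℚ_[p]) m * (η (u α m) : ℕ → ℚ_[p]) i with hD
  have key : ∀ n : ℕ, ‖(p : ℚ_[p]) * D‖ ≤ (((N : ℝ) + 1) * p) * ((p : ℝ)⁻¹) ^ n := by
    intro n
    have hap : ∀ m, ∃ b : ℕ, ‖(p : ℚ_[p]) * (g : ℕ → ℚ_[p]) m - (b : ℚ_[p])‖ ≤
        ((p : ℝ)⁻¹) ^ n := by
      intro m
      refine approx _ ?_ n
      rw [norm_mul, Padic.norm_p, inv_mul_le_iff₀ hp0, mul_one]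
      exact norm_le g m
    choose b hb using hap
    set h : Grp α := p • g - ∑ m ∈ Finset.range N, b m • u α m with hh
    have hcoord : ∀ m, (h : ℕ → ℚ_[p]) m = if m < N then
        (p : ℚ_[p]) * (g : ℕ → ℚ_[p]) m - (b m : ℚ_[p]) else 0 := by
      intro m
      have h1 : ((∑ j ∈ Finset.range N, b j • u α j : Grp α) : ℕ → ℚ_[p]) m =
          if m < N then (b m : ℚ_[p]) else 0 := by
        rw [AddSubgroup.val_finsetSum, Finset.sum_apply]
        simp only [AddSubgroup.coe_nsmul, Pi.smul_apply, nsmul_eq_mul, u_apply]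
        simp
      rw [hh]
      rw [AddSubgroup.coe_sub, Pi.sub_apply, h1]
      simp only [AddSubgroup.coe_nsmul, Pi.smul_apply, nsmul_eq_mul]
      split_ifs with hm
      · rfl
      · rw [hN m (not_lt.mp hm)]; simp
    have hsmall : ∀ m, ‖(h : ℕ → ℚ_[p]) m‖ ≤ ((p : ℝ)⁻¹) ^ n := by
      intro m
      rw [hcoord]
      split_ifs
      · exact hb m
      · rw [norm_zero]; positivity
    obtain ⟨h', hh'⟩ := divide h n hsmall
    have e1 : (p : ℚ_[p]) * (η g : ℕ → ℚ_[p]) i -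
        ∑ m ∈ Finset.range N, (b m : ℚ_[p]) * (η (u α m) : ℕ → ℚ_[p]) i =
        (p : ℚ_[p]) ^ n * (η h' : ℕ → ℚ_[p]) i := by
      have e2 : p • η g - ∑ m ∈ Finset.range N, b m • η (u α m) = (p ^ n) • η h' := by
        rw [← map_nsmul, ← map_nsmul, ← hh', hh, map_sub, map_sum]
        simp only [map_nsmul]
      have e3 := congrArg (fun z : Grp α => (z : ℕ → ℚ_[p]) i) e2
      simp only [AddSubgroup.coe_sub, Pi.sub_apply, AddSubgroup.coe_nsmul, Pi.smul_apply,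
        nsmul_eq_mul, AddSubgroup.val_finsetSum, Finset.sum_apply] at e3
      push_cast at e3
      exact e3
    have e4 : (p : ℚ_[p]) * D = (p : ℚ_[p]) ^ n * (η h' : ℕ → ℚ_[p]) i -
        ∑ m ∈ Finset.range N, ((p : ℚ_[p]) * (g : ℕ → ℚ_[p]) m - (b m : ℚ_[p])) *
          (η (u α m) : ℕ → ℚ_[p]) i := by
      rw [← e1, hD]
      simp only [sub_mul, Finset.sum_sub_distrib, mul_sub, Finset.mul_sum]
      ring
    rw [e4]
    refine (norm_sub_le _ _).trans ?_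
    have b1 : ‖(p : ℚ_[p]) ^ n * (η h' : ℕ → ℚ_[p]) i‖ ≤ ((p : ℝ)⁻¹) ^ n * p := by
      rw [norm_mul, norm_pow, Padic.norm_p]
      exact mul_le_mul_of_nonneg_left (norm_le _ _) (by positivity)
    have b2 : ‖∑ m ∈ Finset.range N, ((p : ℚ_[p]) * (g : ℕ → ℚ_[p]) m - (b m : ℚ_[p])) *
          (η (u α m) : ℕ → ℚ_[p]) i‖ ≤ N * (((p : ℝ)⁻¹) ^ n * p) := by
      refine (norm_sum_le _ _).trans ?_
      refine (Finset.sum_le_card_nsmul _ _ (((p : ℝ)⁻¹) ^ n * p) ?_).trans ?_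
      · intro m _
        rw [norm_mul]
        exact mul_le_mul (hb m) (norm_le _ _) (norm_nonneg _) (by positivity)
      · rw [Finset.card_range, nsmul_eq_mul]
    calc _ ≤ ((p : ℝ)⁻¹) ^ n * p + N * (((p : ℝ)⁻¹) ^ n * p) := add_le_add b1 b2
      _ = _ := by ring
  have hlim : Tendsto (fun n : ℕ => (((N : ℝ) + 1) * p) * ((p : ℝ)⁻¹) ^ n) atTop (𝓝 0) := by
    have := tendsto_pow_atTop_nhds_zero_of_lt_one (r := (p : ℝ)⁻¹) (by positivity)
      (inv_lt_one_of_one_lt₀ hp1)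
    simpa using this.const_mul (((N : ℝ) + 1) * p)
  have h0 : ‖(p : ℚ_[p]) * D‖ ≤ 0 := ge_of_tendsto' hlim key
  have h1 : (p : ℚ_[p]) * D = 0 := norm_le_zero_iff.mp h0
  have h2 : D = 0 := (mul_eq_zero.mp h1).resolve_left hpne
  exact sub_eq_zero.mp h2

/-- Structure of endomorphisms: there are rationals `y j m = (η u_j)_m` with a Toeplitz pattern. -/
theorem structure_end {α : ℚ_[p]} (hα1 : ‖α‖ ≤ 1) (hα : Transcendental ℚ α)
    (η : Grp α →+ Grp α) : ∃ y : ℕ → ℕ → ℚ,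
      (∀ j m, (η (u α j) : ℕ → ℚ_[p]) m = y j m) ∧
      (∀ j m, y (j + 1) (m + 1) = y j m) ∧ (∀ m, y 0 (m + 1) = 0) := by
  have hex : ∀ j, ∃ A C : ℕ → ℚ, ∀ m, (η (u α j) : ℕ → ℚ_[p]) m =
      A m + α ^ 3 * C m + α * C (m + 1) := fun j => (η (u α j)).2.2.2.2
  choose A C hAC using hex
  -- the images of the `X j`
  have hX0 : ∀ m, (η (X α hα1 0) : ℕ → ℚ_[p]) m = α ^ 3 * (η (u α 0) : ℕ → ℚ_[p]) m := by
    intro m
    rw [formula η (X α hα1 0) 1 (fun m hm => by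
      rw [X_apply, if_neg (by omega), if_neg (by omega)]; simp) m]
    rw [Finset.sum_range_one, X_apply]
    simp
  have hXs : ∀ j m, (η (X α hα1 (j + 1)) : ℕ → ℚ_[p]) m =
      α * (η (u α j) : ℕ → ℚ_[p]) m + α ^ 3 * (η (u α (j + 1)) : ℕ → ℚ_[p]) m := by
    intro j m
    rw [formula η (X α hα1 (j + 1)) (j + 2) (fun m hm => by
      rw [X_apply, if_neg (by omega), if_neg (by omega)]; simp) m]
    rw [Finset.sum_range_succ, Finset.sum_range_succ]
    have : ∑ x ∈ Finset.range j, (X α hα1 (j + 1) : ℕ → ℚ_[p]) x * (η (u α x) : ℕ → ℚ_[p]) m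
        = 0 := by
      refine Finset.sum_eq_zero ?_
      intro x hx
      rw [Finset.mem_range] at hx
      rw [X_apply, if_neg (by omega), if_neg (by omega)]; simp
    rw [this, X_apply, X_apply]
    simp
  have hXex : ∀ j, ∃ A C : ℕ → ℚ, ∀ m, (η (X α hα1 j) : ℕ → ℚ_[p]) m =
      A m + α ^ 3 * C m + α * C (m + 1) := fun j => (η (X α hα1 j)).2.2.2.2
  choose A' C' hAC' using hXex
  -- comparison of coefficients
  have hcomp : ∀ j m, C j m = 0 ∧ A j m = C' (j + 1) (m + 1) ∧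
      A (j + 1) m = C' (j + 1) m := by
    intro j m
    have h1 : ∀ m, C j (m + 1) = 0 ∧ A j m = C' (j + 1) (m + 1) ∧ A (j + 1) m = C' (j + 1) m ∧
        C j m + C (j + 1) (m + 1) = 0 ∧ C (j + 1) m = 0 := by
      intro m
      have e := hXs j m
      rw [hAC, hAC, hAC'] at e
      have := indep hα (-A' (j + 1) m) (A j m - C' (j + 1) (m + 1)) (C j (m + 1))
        (A (j + 1) m - C' (j + 1) m) (C j m + C (j + 1) (m + 1)) (C (j + 1) m) (by
          push_cast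
          linear_combination -e)
      obtain ⟨-, e1, e2, e3, e4, e6⟩ := this
      exact ⟨e2, by linarith, by linarith, e4, e6⟩
    have h2 := h1 m
    have h3 := h1 (m + 1)
    refine ⟨?_, h2.2.1, h2.2.2.1⟩
    have h4 := h2.2.2.2.1
    have h5 := h3.2.2.2.2
    linarith
  have hzero : ∀ m, A 0 (m + 1) = 0 := by
    intro m
    have h1 : ∀ m, C' 0 (m + 1) = 0 ∧ A 0 m = C' 0 m := by
      intro m
      have e := hX0 m
      rw [hAC, hAC'] at e
      rw [(hcomp 0 m).1, (hcomp 0 (m + 1)).1] at e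
      have := indep hα (-A' 0 m) (- C' 0 (m + 1)) 0 (A 0 m - C' 0 m) 0 0 (by
          push_cast
          push_cast at e
          linear_combination -e)
      obtain ⟨-, e1, e2, e3, -, -⟩ := this
      exact ⟨by linarith, by linarith⟩
    rw [(h1 (m + 1)).2, (h1 m).1]
  refine ⟨A, ?_, ?_, hzero⟩
  · intro j m
    rw [hAC, (hcomp j m).1, (hcomp j (m + 1)).1]
    simp
  · intro j m
    rw [(hcomp j (m + 1)).2.2, (hcomp j m).2.1]

theorem y_upper {y : ℕ → ℕ → ℚ} (h1 : ∀ j m, y (j + 1) (m + 1) = y j m)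
    (h2 : ∀ m, y 0 (m + 1) = 0) : ∀ j m, j < m → y j m = 0 := by
  intro j
  induction j with
  | zero =>
    intro m hm
    obtain ⟨k, rfl⟩ : ∃ k, m = k + 1 := ⟨m - 1, by omega⟩
    exact h2 k
  | succ j ih =>
    intro m hm
    obtain ⟨k, rfl⟩ : ∃ k, m = k + 1 := ⟨m - 1, by omega⟩
    rw [h1]; exact ih k (by omega)

theorem y_diag {y : ℕ → ℕ → ℚ} (h1 : ∀ j m, y (j + 1) (m + 1) = y j m) :
    ∀ j, y j j = y 0 0 := by
  intro j
  induction j with
  | zero => rfl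
  | succ j ih => rw [h1]; exact ih

/-- the vector `e_0 = u_0 / p` -/
noncomputable def e0 (α : ℚ_[p]) : Grp α :=
  ⟨fun m => if m = 0 then (p : ℚ_[p])⁻¹ else 0, ⟨1, fun m hm => by
    show (if m = 0 then (p : ℚ_[p])⁻¹ else 0) = 0
    rw [if_neg (by omega)]⟩, by
    show ‖(if 0 = 0 then (p : ℚ_[p])⁻¹ else 0)‖ ≤ p
    rw [if_pos rfl, norm_inv, Padic.norm_p, inv_inv], fun m => by simp,
    fun m => if m = 0 then (p : ℚ)⁻¹ else 0, 0, fun m => by
    by_cases h : m = 0 <;> simp [h]⟩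

theorem e0_apply (α : ℚ_[p]) (m : ℕ) :
    (e0 α : ℕ → ℚ_[p]) m = if m = 0 then (p : ℚ_[p])⁻¹ else 0 := rfl

theorem hopfian {α : ℚ_[p]} (hα1 : ‖α‖ ≤ 1) (hα : Transcendental ℚ α)
    (η : Grp α →+ Grp α) (hsurj : Function.Surjective η) : Function.Bijective η := by
  refine ⟨?_, hsurj⟩
  have hp1 : (1 : ℝ) < p := by exact_mod_cast hp.out.one_lt
  obtain ⟨y, hy, h1, h2⟩ := structure_end hα1 hα η
  have hup := y_upper h1 h2
  have hdiag := y_diag h1
  -- the constant term is nonzero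
  have hf0 : y 0 0 ≠ 0 := by
    intro h0
    obtain ⟨g, hg⟩ := hsurj (e0 α)
    obtain ⟨N, hN⟩ := g.2.1
    have e := formula η g N hN 0
    rw [hg, e0_apply, if_pos rfl] at e
    have hle : ‖∑ m ∈ Finset.range N, (g : ℕ → ℚ_[p]) m * (η (u α m) : ℕ → ℚ_[p]) 0‖ ≤ 1 := by
      refine IsUltrametricDist.norm_sum_le_of_forall_le_of_nonneg zero_le_one ?_
      intro m _
      rcases m with _ | m
      · rw [hy, h0]; simp
      · rw [hy, norm_mul]
        have h3 : ‖((y (m + 1) 0 : ℚ) : ℚ_[p])‖ ≤ 1 := by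
          rw [← h1 (m + 1) 0, ← hy]
          exact (η (u α (m + 1 + 1))).2.2.2.1 0
        exact mul_le_one₀ (g.2.2.2.1 m) (norm_nonneg _) h3
    rw [← e, norm_inv, Padic.norm_p, inv_inv] at hle
    linarith
  rw [injective_iff_map_eq_zero]
  intro g hg
  by_contra hne
  obtain ⟨N, hN⟩ := g.2.1
  -- the last nonzero coordinate
  have hex : ∃ m, (g : ℕ → ℚ_[p]) m ≠ 0 := by
    by_contra hno
    push Not at hno
    apply hne
    ext m
    exact hno m
  classical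
  obtain ⟨m0, hm0⟩ := hex
  have hm0N : m0 < N := by
    by_contra h
    exact hm0 (hN m0 (not_lt.mp h))
  set S : Finset ℕ := (Finset.range N).filter (fun m => (g : ℕ → ℚ_[p]) m ≠ 0) with hS
  have hSne : S.Nonempty := ⟨m0, by rw [hS, Finset.mem_filter, Finset.mem_range]; exact ⟨hm0N, hm0⟩⟩
  set M := S.max' hSne with hM
  have hMS : M ∈ S := S.max'_mem hSne
  have hgM : (g : ℕ → ℚ_[p]) M ≠ 0 := (Finset.mem_filter.mp hMS).2
  have habove : ∀ m, M + 1 ≤ m → (g : ℕ → ℚ_[p]) m = 0 := by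
    intro m hm
    by_contra h
    have hmN : m < N := by
      by_contra h'
      exact h (hN m (not_lt.mp h'))
    have hmS : m ∈ S := by rw [hS, Finset.mem_filter, Finset.mem_range]; exact ⟨hmN, h⟩
    have := S.le_max' m hmS
    omega
  have e := formula η g (M + 1) habove M
  rw [hg] at e
  rw [Finset.sum_range_succ] at e
  have hz : ∑ m ∈ Finset.range M, (g : ℕ → ℚ_[p]) m * (η (u α m) : ℕ → ℚ_[p]) M = 0 := by
    refine Finset.sum_eq_zero ?_
    intro m hm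
    rw [hy, hup m M (Finset.mem_range.mp hm)]; simp
  rw [hz, zero_add, hy, hdiag M] at e
  have e' : (0 : ℚ_[p]) = (g : ℕ → ℚ_[p]) M * ((y 0 0 : ℚ) : ℚ_[p]) := by
    rw [← e]; rfl
  have hf0' : ((y 0 0 : ℚ) : ℚ_[p]) ≠ 0 := by exact_mod_cast hf0
  exact (mul_ne_zero hgM hf0') e'.symm

/-- The shift. -/
def shift (α : ℚ_[p]) : Grp α →+ Grp α where
  toFun w := ⟨fun m => (w : ℕ → ℚ_[p]) (m + 1), by
    obtain ⟨w, ⟨N, hN⟩, h0, h1, A, C, hAC⟩ := w
    refine ⟨⟨N, fun m hm => hN (m + 1) (by omega)⟩, (h1 0).trans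
      (by exact_mod_cast hp.out.one_lt.le), fun m => h1 (m + 1), fun m => A (m + 1),
      fun m => C (m + 1), fun m => hAC (m + 1)⟩⟩
  map_zero' := rfl
  map_add' _ _ := rfl

theorem shift_apply (α : ℚ_[p]) (w : Grp α) (m : ℕ) :
    (shift α w : ℕ → ℚ_[p]) m = (w : ℕ → ℚ_[p]) (m + 1) := rfl

theorem shift_e0 (α : ℚ_[p]) : shift α (e0 α) = 0 := by
  ext m
  rw [shift_apply, e0_apply, if_neg (by omega)]; rfl

theorem e0_ne (α : ℚ_[p]) : e0 α ≠ 0 := by
  intro h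
  have := congrArg (fun z : Grp α => (z : ℕ → ℚ_[p]) 0) h
  simp only [e0_apply, if_pos, AddSubgroup.coe_zero, Pi.zero_apply] at this
  exact (inv_ne_zero (by exact_mod_cast hp.out.ne_zero : (p : ℚ_[p]) ≠ 0)) this

/-- Every element is congruent to a multiple `m e_0`, `0 ≤ m < p`, modulo the image. -/
theorem coset {α : ℚ_[p]} (g : Grp α) :
    ∃ m : Fin p, ∃ g' : Grp α, g = shift α g' + (m : ℕ) • e0 α := by
  have hp0 : (0 : ℝ) < p := by exact_mod_cast hp.out.pos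
  have hpne : (p : ℚ_[p]) ≠ 0 := by exact_mod_cast hp.out.ne_zero
  have hg := g.2
  obtain ⟨⟨N, hN⟩, h0, h1, A, C, hAC⟩ := hg
  -- choose `m`
  have hx : ‖(p : ℚ_[p]) * (g : ℕ → ℚ_[p]) 0‖ ≤ 1 := by
    rw [norm_mul, Padic.norm_p, inv_mul_le_iff₀ hp0, mul_one]; exact h0
  set z : ℤ_[p] := ⟨(p : ℚ_[p]) * (g : ℕ → ℚ_[p]) 0, hx⟩ with hz
  obtain ⟨m, hmp, hm⟩ := PadicInt.exists_mem_range z
  have hm1 : ‖(p : ℚ_[p]) * (g : ℕ → ℚ_[p]) 0 - m‖ ≤ (p : ℝ)⁻¹ := by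
    rw [PadicInt.maximalIdeal_eq_span_p, ← pow_one (p : ℤ_[p]),
      ← PadicInt.norm_le_pow_iff_mem_span_pow] at hm
    have hm' : ‖(z - (m : ℤ_[p]) : ℤ_[p])‖ =
        ‖(p : ℚ_[p]) * (g : ℕ → ℚ_[p]) 0 - m‖ := by
      rw [PadicInt.norm_def]; push_cast; rfl
    rw [hm'] at hm
    simpa using hm
  have hm2 : ‖(g : ℕ → ℚ_[p]) 0 - m / p‖ ≤ 1 := by
    have : (g : ℕ → ℚ_[p]) 0 - m / p = (p : ℚ_[p])⁻¹ * ((p : ℚ_[p]) * (g : ℕ → ℚ_[p]) 0 - m) := by
      field_simp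
    rw [this, norm_mul, norm_inv, Padic.norm_p, inv_inv]
    calc (p : ℝ) * _ ≤ p * (p : ℝ)⁻¹ := mul_le_mul_of_nonneg_left hm1 hp0.le
      _ = 1 := mul_inv_cancel₀ hp0.ne'
  -- choose the zeroth coordinate
  obtain ⟨r, hr⟩ := Padic.rat_dense p (-(α * C 0)) hp0
  let A' : ℕ → ℚ := fun i => match i with
    | 0 => r
    | 1 => A 0 - m / p
    | (k + 2) => A (k + 1)
  let C' : ℕ → ℚ := fun i => match i with
    | 0 => 0
    | (k + 1) => C k
  have hmem : (fun i => (A' i : ℚ_[p]) + α ^ 3 * C' i + α * C' (i + 1)) ∈ Grp α := by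
    have hw1 : (A' 1 : ℚ_[p]) + α ^ 3 * C' 1 + α * C' (1 + 1) = (g : ℕ → ℚ_[p]) 0 - m / p := by
      rw [hAC]
      simp only [A', C']
      push_cast; ring
    have hwk : ∀ k, (A' (k + 2) : ℚ_[p]) + α ^ 3 * C' (k + 2) + α * C' (k + 2 + 1) =
        (g : ℕ → ℚ_[p]) (k + 1) := by
      intro k
      rw [hAC]
    refine ⟨⟨N + 2, ?_⟩, ?_, ?_, A', C', fun _ => rfl⟩
    · intro i hi
      obtain ⟨k, rfl⟩ : ∃ k, i = k + 2 := ⟨i - 2, by omega⟩
      simp only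
      rw [hwk]
      exact hN _ (by omega)
    · simp only [A', C']
      rw [← norm_neg]
      have : -((r : ℚ_[p]) + α ^ 3 * ((0 : ℚ) : ℚ_[p]) + α * (C 0 : ℚ_[p])) =
          -(α * C 0) - r := by push_cast; ring
      rw [this]
      exact hr.le
    · intro i
      rcases i with _ | k
      · simp only [zero_add]
        rw [hw1]; exact hm2
      · simp only
        rw [hwk]; exact h1 k
  refine ⟨⟨m, hmp⟩, ⟨_, hmem⟩, ?_⟩
  ext i
  rw [AddSubgroup.coe_add, Pi.add_apply, shift_apply]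
  simp only [AddSubgroup.coe_nsmul, Pi.smul_apply, nsmul_eq_mul, e0_apply]
  rcases i with _ | k
  · rw [if_pos rfl, hAC]
    simp only [A', C']
    push_cast
    field_simp
    ring
  · rw [if_neg (by omega), hAC]
    simp only [A', C']
    ring

theorem finite_quotient (α : ℚ_[p]) : Finite (Grp α ⧸ (shift α).range) := by
  refine Finite.of_surjective (fun m : Fin p => (QuotientAddGroup.mk ((m : ℕ) • e0 α) :
    Grp α ⧸ (shift α).range)) ?_
  intro q
  obtain ⟨g, rfl⟩ := QuotientAddGroup.mk_surjective q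
  obtain ⟨m, g', hg⟩ := coset g
  refine ⟨m, ?_⟩
  simp only
  rw [QuotientAddGroup.eq]
  refine ⟨g', ?_⟩
  rw [hg]; abel

/-- **Main theorem.** There are a torsion-free Hopfian abelian group `G` and an endomorphism `φ`
of `G` with `G / φ(G)` finite and `ker φ ≠ 0`. -/
theorem result : ∃ (G : Type) (_ : AddCommGroup G),
    (∀ (n : ℤ) (x : G), n ≠ 0 → n • x = 0 → x = 0) ∧
    (∀ η : G →+ G, Function.Surjective η → Function.Bijective η) ∧
    ∃ φ : G →+ G, Finite (G ⧸ φ.range) ∧ φ.ker ≠ ⊥ := by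
  have h2 : Fact (Nat.Prime 2) := ⟨Nat.prime_two⟩
  obtain ⟨α, hα1, hα⟩ := exists_transcendental 2
  refine ⟨Grp α, inferInstance, ?_, ?_, shift α, finite_quotient α, ?_⟩
  · intro n x hn hx
    ext m
    have := congrArg (fun z : Grp α => (z : ℕ → ℚ_[2]) m) hx
    simp only [AddSubgroup.coe_zsmul, Pi.smul_apply, zsmul_eq_mul, AddSubgroup.coe_zero,
      Pi.zero_apply] at this
    rcases mul_eq_zero.mp this with h | h
    · exact absurd (by exact_mod_cast h) hn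
    · exact h
  · exact fun η hη => hopfian hα1 hα η hη
  · intro hk
    apply e0_ne α
    rw [AddMonoidHom.ker_eq_bot_iff] at hk
    exact hk (by rw [shift_e0, map_zero])

end Pool.Agent.Results.MP_f7162b_al.NotCofinite
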